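import Mathlib

set_option autoImplicit false

/-! Coxeter matrices of the affine types `A~_n`, `B~_n`, `C~_n`, `D~_n`, and the condition that a
Coxeter graph contains a path with nine vertices as a full subgraph. -/

namespace Pool.Agent.Y826.KL

/-- The Coxeter matrix of affine type `A~_n` (`n ≥ 2`): a cycle with the `n + 1` vertices
`0, 1, …, n`, all edges with label `3`. -/
def affineA (n : ℕ) : CoxeterMatrix (Fin (n + 1)) where
  M := Matrix.of fun i j => if i = j then 1 else if i + 1 = j ∨ j + 1 = i then 3 else 2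
  isSymm := by
    ext i j
    simp only [Matrix.transpose_apply, Matrix.of_apply]
    by_cases h : i = j
    · simp [h]
    · simp only [h, Ne.symm h, if_false, or_comm]
  diagonal := by
    intro i
    simp
  off_diagonal := by
    intro i j h
    simp only [Matrix.of_apply, h, if_false]
    split_ifs <;> norm_num

/-- The Coxeter matrix on the vertices `0, 1, …, n` in which the label of two different vertices
`a < b` is `f a b`. -/
def ofLabels (n : ℕ) (f : ℕ → ℕ → ℕ) (hf : ∀ a b, f a b ≠ 1) : CoxeterMatrix (Fin (n + 1)) where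
  M := Matrix.of fun i j => if i = j then 1 else f (min (i : ℕ) j) (max (i : ℕ) j)
  isSymm := by
    ext i j
    simp only [Matrix.transpose_apply, Matrix.of_apply]
    by_cases h : i = j
    · simp [h]
    · simp only [h, Ne.symm h, if_false, min_comm, max_comm]
  diagonal := by
    intro i
    simp
  off_diagonal := by
    intro i j h
    simp only [Matrix.of_apply, h, if_false]
    exact hf _ _

/-- The Coxeter matrix of affine type `B~_n` (`n ≥ 3`): edges with label `3` between `0` and `2`
and between `a` and `a + 1` for `1 ≤ a ≤ n - 2`, an edge with label `4` between `n - 1` and `n`. -/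
def affineB (n : ℕ) : CoxeterMatrix (Fin (n + 1)) :=
  ofLabels n (fun a b => if (a = 0 ∧ b = 2) ∨ (1 ≤ a ∧ b = a + 1 ∧ b < n) then 3
    else if a + 1 = n ∧ b = n then 4 else 2) (by intro a b; split_ifs <;> norm_num)

/-- The Coxeter matrix of affine type `C~_n` (`n ≥ 2`): the path `0, 1, …, n`, whose first and last
edges have the label `4`, all other edges have the label `3`. -/
def affineC (n : ℕ) : CoxeterMatrix (Fin (n + 1)) :=
  ofLabels n (fun a b => if b = a + 1 then (if a = 0 ∨ b = n then 4 else 3) else 2)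
    (by intro a b; split_ifs <;> norm_num)

/-- The Coxeter matrix of affine type `D~_n` (`n ≥ 4`): edges (with label `3`) between `0` and `2`,
between `a` and `a + 1` for `1 ≤ a ≤ n - 2`, and between `n - 2` and `n`. -/
def affineD (n : ℕ) : CoxeterMatrix (Fin (n + 1)) :=
  ofLabels n (fun a b => if (a = 0 ∧ b = 2) ∨ (1 ≤ a ∧ b = a + 1 ∧ b < n) ∨ (a + 2 = n ∧ b = n)
    then 3 else 2) (by intro a b; split_ifs <;> norm_num)

/-- The Coxeter graph of `M` contains a path with nine vertices as a full subgraph with labels `3`: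
nine generators which form a Coxeter graph of type `A_9`. -/
def ContainsA9 {B : Type} (M : CoxeterMatrix B) : Prop :=
  ∃ p : Fin 9 → B, ∀ i j : Fin 9, M (p i) (p j) =
    if i = j then 1 else if (i : ℕ) + 1 = j ∨ (j : ℕ) + 1 = i then 3 else 2

lemma affineA_containsA9 {n : ℕ} (hn : 9 ≤ n) : ContainsA9 (affineA n) := by
  refine ⟨fun i => ⟨i, by omega⟩, ?_⟩
  intro i j
  show (if _ = _ then 1 else if _ ∨ _ then 3 else 2) = _
  have h1 : ((⟨i, by omega⟩ : Fin (n + 1)) = ⟨j, by omega⟩) ↔ i = j := by
    rw [Fin.mk.injEq, Fin.ext_iff]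
  have h2 : ∀ i j : Fin 9, ((⟨i, by omega⟩ : Fin (n + 1)) + 1 = ⟨j, by omega⟩) ↔ (i : ℕ) + 1 = j := by
    intro i j
    rw [Fin.ext_iff, Fin.val_add_one_of_lt']
    · show ((i : ℕ)) + 1 < n + 1
      omega
  simp only [h1, h2]

lemma ofLabels_containsA9 {n : ℕ} (hn : 10 ≤ n) (f : ℕ → ℕ → ℕ) (hf : ∀ a b, f a b ≠ 1)
    (h : ∀ a b, 1 ≤ a → a < b → b ≤ 9 → f a b = if a + 1 = b then 3 else 2) :
    ContainsA9 (ofLabels n f hf) := by
  refine ⟨fun i => ⟨i + 1, by omega⟩, ?_⟩
  intro i j
  show (if _ = _ then 1 else f _ _) = _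
  have h1 : ((⟨(i : ℕ) + 1, by omega⟩ : Fin (n + 1)) = ⟨j + 1, by omega⟩) ↔ i = j := by
    rw [Fin.mk.injEq, Fin.ext_iff]
    omega
  simp only [h1]
  by_cases e : i = j
  · rw [if_pos e, if_pos e]
  · rw [if_neg e, if_neg e]
    have e' : (i : ℕ) ≠ j := fun h => e (Fin.ext h)
    rcases lt_or_gt_of_ne e' with h2 | h2
    · rw [min_eq_left (by omega), max_eq_right (by omega), h _ _ (by omega) (by omega) (by omega)]
      by_cases h3 : (i : ℕ) + 1 = j
      · rw [if_pos (by omega), if_pos (by omega)]
      · rw [if_neg (by omega), if_neg (by omega)]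
    · rw [min_eq_right (by omega), max_eq_left (by omega), h _ _ (by omega) (by omega) (by omega)]
      by_cases h3 : (j : ℕ) + 1 = i
      · rw [if_pos (by omega), if_pos (by omega)]
      · rw [if_neg (by omega), if_neg (by omega)]

lemma affineB_containsA9 {n : ℕ} (hn : 10 ≤ n) : ContainsA9 (affineB n) := by
  apply ofLabels_containsA9 hn
  intro a b h1 h2 h3
  by_cases h : a + 1 = b
  · rw [if_pos (by omega), if_pos h]
  · rw [if_neg (by omega), if_neg (by omega), if_neg h]

lemma affineC_containsA9 {n : ℕ} (hn : 10 ≤ n) : ContainsA9 (affineC n) := by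
  apply ofLabels_containsA9 hn
  intro a b h1 h2 h3
  by_cases h : a + 1 = b
  · rw [if_pos h.symm, if_neg (by omega), if_pos h]
  · rw [if_neg (by omega), if_neg h]

lemma affineD_containsA9 {n : ℕ} (hn : 10 ≤ n) : ContainsA9 (affineD n) := by
  apply ofLabels_containsA9 hn
  intro a b h1 h2 h3
  by_cases h : a + 1 = b
  · rw [if_pos (by omega), if_pos h]
  · rw [if_neg (by omega), if_neg h]

end Pool.Agent.Y826.KL
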