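import Pool.Agent.Y826.KL.Gen
import Pool.Agent.Y826.KL.Aff

set_option autoImplicit false

/-! The explicit pair of left cells, for every Coxeter matrix which contains a diagram `A_9`. -/

namespace Pool.Agent.Y826.KL

open Module Pool.Agent.Helper703.Cox Pool.Agent.Helper703.KL

section

variable {B : Type*} [Fintype B] [DecidableEq B] {M : CoxeterMatrix B} [PathA9 M]
variable {W : Type*} [Group W] {cs : CoxeterSystem M W}
variable {H : Type*} [Ring H] [Algebra A H] {T C : Basis W A H} {bar : H →+* H}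

/-- Two shortest elements `x`, `x'` of left cells such that `w = λ(x⁻¹, x)` lies in the left cell
of `x'` and differs from `w' = λ(x'⁻¹, x')`. -/
theorem explicit (hT : IsHecke cs T) (hb : IsBar cs T bar) (hC : IsKLBasis cs T bar C) :
    ∃ x x' w w' : W, Shortest cs T C x ∧ Shortest cs T C x' ∧ IsLambda cs T x⁻¹ x w ∧
      IsLambda cs T x'⁻¹ x' w' ∧ LEq cs T C x' w ∧ ¬ BLe cs w' w ∧ w ≠ w' := by
  obtain ⟨k1, k2, k3, k4, k5, k6, k7, k8, k9, k10, k11, k12, k13, k14, k15, k16, k17⟩ := checks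
  have sx : Shortest cs T C (wd cs wx) := shortest_of hT hb hC wx px 27 k1 k3 k9 k11 k13 c2
  have sy : Shortest cs T C (wd cs wy) := shortest_of hT hb hC wy py 32 k2 k4 k10 k12 k14 c3
  obtain ⟨lx, -, okw⟩ := word_lambda (cs := cs) hT wx k1 27 k3 k7
  obtain ⟨ly, pz, -⟩ := word_lambda (cs := cs) hT wy k2 32 k4 k8
  have hy : Pat cs (wd cs wy)⁻¹ (patOf wy.reverse) := by
    rw [← wd_reverse]
    exact Pat.wd (okWord_reverse k2)
  have e := chain_sound hT hb hC cyw wy _ hy k15
  rw [wd_eq (cs := cs) k16 okw k17] at e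
  have h5 : cs.length (wd cs ww) ≤ 36 := by
    rw [← k5]; exact wd_length_le ww
  have h6 : 39 ≤ cs.length (wd cs wz.1) := by
    have := bub_le 46 _ _ pz
    rw [cs.length_inv] at this
    exact le_trans k6 this
  have e1 : wd cs (demW wx.reverse (wx, patOf wx.reverse)).1 = wd cs ww := rfl
  have e2 : wd cs (demW wy.reverse (wy, patOf wy.reverse)).1 = wd cs wz.1 := rfl
  rw [e1] at lx e
  rw [e2] at ly
  refine ⟨wd cs wx, wd cs wy, wd cs ww, wd cs wz.1, sx, sy, lx, ly, e.symm, ?_, ?_⟩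
  · intro h
    rcases h.length with h | h
    · rw [h] at h6; omega
    · omega
  · intro h
    rw [h] at h5
    omega

end

/-- the assertion fails -/
theorem fails_of_containsA9 {B : Type} [Finite B] {M : CoxeterMatrix B} (hM : ContainsA9 M)
    {W : Type} [Group W] (cs : CoxeterSystem M W) {H : Type} [Ring H] [Algebra A H]
    (T : Basis W A H) (bar : H →+* H) (C : Basis W A H) (hT : IsHecke cs T) (hb : IsBar cs T bar)
    (hC : IsKLBasis cs T bar C) :
    ∃ x x' w w' : W, Shortest cs T C x ∧ Shortest cs T C x' ∧ IsLambda cs T x⁻¹ x w ∧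
      IsLambda cs T x'⁻¹ x' w' ∧ LEq cs T C x' w ∧ ¬ BLe cs w' w ∧ w ≠ w' := by
  classical
  have := Fintype.ofFinite B
  obtain ⟨p, hp⟩ := hM
  let _inst : PathA9 M := ⟨fun k => p (Fin.ofNat 9 (k - 1)), by
    intro l k hl hl' hk hk'
    rw [hp]
    have e1 : ((Fin.ofNat 9 (l - 1) : Fin 9) : ℕ) = l - 1 := by
      show (l - 1) % 9 = l - 1
      omega
    have e2 : ((Fin.ofNat 9 (k - 1) : Fin 9) : ℕ) = k - 1 := by
      show (k - 1) % 9 = k - 1
      omega
    simp only [Fin.ext_iff, e1, e2]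
    by_cases h1 : l = k
    · rw [if_pos (by omega), if_pos h1]
    · rw [if_neg (by omega), if_neg h1]
      by_cases h2 : l + 1 = k ∨ k + 1 = l
      · rw [if_pos (by omega), if_pos h2]
      · rw [if_neg (by omega), if_neg h2]⟩
  exact explicit hT hb hC

end Pool.Agent.Y826.KL
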