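import Pool.Agent.Helper703.KL.Main

set_option autoImplicit false
set_option linter.unusedSectionVars false

/-! Generalisation of the files `Window`, `Comb`, `Words`, `Main` of `Pool/Agent/Helper703/KL` from
affine type `A~_9` to all Coxeter systems which contain nine generators forming a diagram `A_9`. -/

namespace Pool.Agent.Y826.KL

open Module Pool.Agent.Helper703.Cox Pool.Agent.Helper703.KL

/-- nine generators of a Coxeter matrix forming a diagram of type `A_9` -/
class PathA9 {B : Type*} (M : CoxeterMatrix B) where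
  /-- the generators (with numbers `1, ..., 9`) -/
  ix : ℕ → B
  /-- they form a path -/
  spec : ∀ l k : ℕ, 1 ≤ l → l ≤ 9 → 1 ≤ k → k ≤ 9 →
    M (ix l) (ix k) = if l = k then 1 else if l + 1 = k ∨ k + 1 = l then 3 else 2

variable {B : Type*} [Fintype B] [DecidableEq B] {M : CoxeterMatrix B} [PathA9 M]

omit [Fintype B] [DecidableEq B] in
lemma cc_ix {l k : ℕ} (hl : 1 ≤ l) (hl' : l ≤ 9) (hk : 1 ≤ k) (hk' : k ≤ 9) :
    2 * cc M ((PathA9.ix (M := M)) l) ((PathA9.ix (M := M)) k) =
      if l = k then -2 else if l + 1 = k ∨ k + 1 = l then 1 else 0 := by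
  have h := PathA9.spec (M := M) l k hl hl' hk hk'
  unfold cc
  rw [h]
  split_ifs
  · simp
  · simp only [Nat.cast_ofNat, Real.cos_pi_div_three]; norm_num
  · simp

variable {W : Type*} [Group W] (cs : CoxeterSystem M W)

/-- height of the root `w e_n` -/
noncomputable def ht (w : W) (n : ℕ) : ℝ := ∑ l, geo cs w (ee ((PathA9.ix (M := M)) n)) l

variable {cs}

lemma ht_mul (w : W) {n k : ℕ} (hn : 1 ≤ n) (hn' : n ≤ 9) (hk : 1 ≤ k) (hk' : k ≤ 9) :
    ht cs (w * cs.simple ((PathA9.ix (M := M)) k)) n = ht cs w n +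
      (if n = k then -2 else if n + 1 = k ∨ k + 1 = n then 1 else 0) * ht cs w k := by
  rw [← cc_ix (M := M) hn hn' hk hk']
  unfold ht
  rw [map_mul, Module.End.mul_apply, geo_simple, sg_ee, map_add, map_smul]
  simp only [Pi.add_apply, Pi.smul_apply, smul_eq_mul, Finset.sum_add_distrib, Finset.mul_sum]

lemma ht_one (n : ℕ) : ht cs 1 n = 1 := by
  unfold ht
  rw [map_one]
  simp [ee]

lemma ht_neg_iff (w : W) (n : ℕ) :
    ht cs w n < 0 ↔ cs.length (w * cs.simple ((PathA9.ix (M := M)) n)) < cs.length w := by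
  constructor
  · intro h
    by_contra hcon
    have h1 : 0 ≤ geo cs w (ee ((PathA9.ix (M := M)) n)) := by
      rw [geo_nonneg_iff]
      have := cs.length_mul_simple_ne w ((PathA9.ix (M := M)) n)
      omega
    have h2 : 0 ≤ ht cs w n := Finset.sum_nonneg (fun l _ => h1 l)
    linarith
  · intro h
    have h1 := (geo_nonpos_iff cs w ((PathA9.ix (M := M)) n)).2 h
    have h2 : ∃ l, geo cs w (ee ((PathA9.ix (M := M)) n)) l ≠ 0 := by
      by_contra hcon
      push Not at hcon
      exact geo_ee_ne_zero cs w ((PathA9.ix (M := M)) n) (funext hcon)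
    obtain ⟨l, hl⟩ := h2
    exact Finset.sum_neg' (fun l _ => h1 l) ⟨l, Finset.mem_univ _, lt_of_le_of_ne (h1 l) hl⟩

lemma ht_pos_iff (w : W) (n : ℕ) :
    0 < ht cs w n ↔ cs.length w < cs.length (w * cs.simple ((PathA9.ix (M := M)) n)) := by
  constructor
  · intro h
    by_contra hcon
    have h1 := cs.length_mul_simple_ne w ((PathA9.ix (M := M)) n)
    have := (ht_neg_iff (cs := cs) w n).2 (by omega)
    linarith
  · intro h
    have h1 := (geo_nonneg_iff cs w ((PathA9.ix (M := M)) n)).2 h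
    have h2 : ∃ l, geo cs w (ee ((PathA9.ix (M := M)) n)) l ≠ 0 := by
      by_contra hcon
      push Not at hcon
      exact geo_ee_ne_zero cs w ((PathA9.ix (M := M)) n) (funext hcon)
    obtain ⟨l, hl⟩ := h2
    exact Finset.sum_pos' (fun l _ => h1 l) ⟨l, Finset.mem_univ _, lt_of_le_of_ne (h1 l) hl.symm⟩

lemma ht_ne_zero (w : W) (n : ℕ) : ht cs w n ≠ 0 := by
  have h1 := cs.length_mul_simple_ne w ((PathA9.ix (M := M)) n)
  rcases lt_or_gt_of_ne h1 with h | h
  · exact ((ht_neg_iff w n).2 h).ne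
  · exact ((ht_pos_iff w n).2 h).ne'

variable (cs) in
/-- window values -/
noncomputable def win (w : W) (a : ℕ) : ℝ := ∑ l ∈ Finset.range a, ht cs w (l + 1)

lemma win_zero (w : W) : win cs w 0 = 0 := by simp [win]
lemma win_succ (w : W) (a : ℕ) : win cs w (a + 1) = win cs w a + ht cs w (a + 1) := by
  rw [win, Finset.sum_range_succ]; rfl

lemma win_mul (w : W) {k : ℕ} (hk : 1 ≤ k) (hk' : k ≤ 9) :
    ∃ c : ℝ, ∀ a, a ≤ 9 → win cs (w * cs.simple ((PathA9.ix (M := M)) k)) a = win cs w (sw k a) + c := by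
  obtain ⟨c, hc⟩ : ∃ c : ℝ, c = if k = 1 then - ht cs w 1 else 0 := ⟨_, rfl⟩
  refine ⟨c, ?_⟩
  intro a
  induction a with
  | zero =>
    intro _
    by_cases h : k = 1
    · have e : sw k 0 = 1 := by rw [sw, if_pos (by omega), h]
      rw [win_zero, e, hc, if_pos h]
      simp [win]
    · have e : sw k 0 = 0 := by rw [sw, if_neg (by omega), if_neg (by omega)]
      rw [win_zero, e, win_zero, hc, if_neg h, add_zero]
  | succ a ih =>
    intro ha
    have h1 := ih (by omega)
    rw [win_succ, h1, ht_mul w (by omega) ha hk hk']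
    obtain ⟨j, rfl⟩ : ∃ j, k = j + 1 := ⟨k - 1, by omega⟩
    by_cases c1 : j = a + 1
    · subst c1
      have e1 : sw (a + 1 + 1) a = a := by rw [sw, if_neg (by omega), if_neg (by omega)]
      have e2 : sw (a + 1 + 1) (a + 1) = a + 2 := by rw [sw, if_pos (by omega)]
      rw [e1, e2, if_neg (by omega), if_pos (by omega), win_succ w (a + 1), win_succ w a]
      ring
    · by_cases c2 : j = a
      · subst c2
        have e1 : sw (j + 1) j = j + 1 := by rw [sw, if_pos (by omega)]
        have e2 : sw (j + 1) (j + 1) = j := by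
          rw [sw, if_neg (by omega), if_pos rfl, Nat.add_sub_cancel]
        rw [e1, e2, if_pos rfl, win_succ w j]
        ring
      · by_cases c3 : a = j + 1
        · subst c3
          have e1 : sw (j + 1) (j + 1) = j := by
            rw [sw, if_neg (by omega), if_pos rfl, Nat.add_sub_cancel]
          have e2 : sw (j + 1) (j + 1 + 1) = j + 2 := by
            rw [sw, if_neg (by omega), if_neg (by omega)]
          rw [e1, e2, if_neg (by omega), if_pos (by omega), win_succ w (j + 1), win_succ w j]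
          ring
        · have e1 : sw (j + 1) a = a := by rw [sw, if_neg (by omega), if_neg (by omega)]
          have e2 : sw (j + 1) (a + 1) = a + 1 := by
            rw [sw, if_neg (by omega), if_neg (by omega)]
          rw [e1, e2, if_neg (by omega), if_neg (by omega), win_succ w a]
          ring

lemma win_ne (n : ℕ) : ∀ (w : W) (a b : ℕ), b = a + 1 + n → b ≤ 9 → win cs w a ≠ win cs w b := by
  induction n with
  | zero =>
    intro w a b hb _
    subst hb
    rw [add_zero, win_succ]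
    intro h
    exact ht_ne_zero (cs := cs) w (a + 1) (by linarith)
  | succ n ih =>
    intro w a b hb hb9 h
    obtain ⟨c, hc⟩ := win_mul (cs := cs) w (k := b) (by omega) hb9
    have h1 := hc a (by omega)
    have h2 := hc (b - 1) (by omega)
    have e1 : sw b a = a := by rw [sw, if_neg (by omega), if_neg (by omega)]
    have e2 : sw b (b - 1) = b := by rw [sw, if_pos (by omega)]
    rw [e1] at h1
    rw [e2] at h2
    exact ih (w * cs.simple ((PathA9.ix (M := M)) b)) a (b - 1) (by omega) (by omega) (by rw [h1, h2, h])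

/-- `ρ` is the pattern of the window of `w`. -/
def Pat (cs : CoxeterSystem M W) (w : W) (ρ : List ℕ) : Prop :=
  ρ.length = 10 ∧ ∀ a b, a ≤ 9 → b ≤ 9 → (win cs w a < win cs w b ↔ ρ.getD a 0 < ρ.getD b 0)

lemma Pat.swap {w : W} {ρ : List ℕ} (h : Pat cs w ρ) {k : ℕ} (hk : 1 ≤ k) (hk' : k ≤ 9) :
    Pat cs (w * cs.simple ((PathA9.ix (M := M)) k)) (swapAt k ρ) := by
  refine ⟨by rw [swapAt_length, h.1], ?_⟩
  intro a b ha hb
  obtain ⟨c, hc⟩ := win_mul (cs := cs) w hk hk'
  rw [hc a ha, hc b hb, swapAt_getD hk hk' h.1 ha, swapAt_getD hk hk' h.1 hb,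
    ← h.2 _ _ (sw_le hk' ha) (sw_le hk' hb)]
  constructor <;> intro h <;> linarith

lemma win_one (a : ℕ) : win cs 1 a = a := by
  simp [win, ht_one]

lemma Pat.one : Pat cs 1 (List.range 10) := by
  refine ⟨by simp, ?_⟩
  intro a b ha hb
  rw [win_one, win_one]
  have h : ∀ a, a ≤ 9 → (List.range 10).getD a 0 = a := by
    intro a ha
    simp [List.getD_eq_getElem?_getD, show a < 10 by omega]
  rw [h a ha, h b hb]
  exact Nat.cast_lt

lemma Pat.des {w : W} {ρ : List ℕ} (h : Pat cs w ρ) {k : ℕ} (hk : 1 ≤ k) (hk' : k ≤ 9) :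
    desAt ρ k = true ↔ cs.length (w * cs.simple ((PathA9.ix (M := M)) k)) < cs.length w := by
  rw [desAt, decide_eq_true_iff, ← h.2 k (k - 1) hk' (by omega), ← ht_neg_iff]
  obtain ⟨j, rfl⟩ : ∃ j, k = j + 1 := ⟨k - 1, by omega⟩
  simp only [Nat.add_sub_cancel]
  rw [win_succ]
  constructor <;> intro h <;> linarith

lemma Pat.not_des {w : W} {ρ : List ℕ} (h : Pat cs w ρ) {k : ℕ} (hk : 1 ≤ k) (hk' : k ≤ 9) :
    desAt ρ k = false ↔ cs.length w < cs.length (w * cs.simple ((PathA9.ix (M := M)) k)) := by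
  have h1 := h.des hk hk'
  have h2 := cs.length_mul_simple_ne w ((PathA9.ix (M := M)) k)
  cases h3 : desAt ρ k
  · simp only [true_iff]
    rw [h3] at h1
    simp only [Bool.false_eq_true, false_iff] at h1
    omega
  · rw [h3] at h1
    simp only [Bool.true_eq_false, false_iff]
    have := h1.1 rfl
    omega

lemma exists_pat (w : W) : ∃ ρ : List ℕ, Pat cs w ρ ∧ ρ.Perm (List.range 10) := by
  classical
  let P : Fin 10 → ℝ := fun a => win cs w a
  have hP : Function.Injective P := by
    intro a b hab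
    by_contra hne
    rcases lt_or_gt_of_ne (fun h => hne (Fin.ext h)) with h | h
    · exact win_ne (cs := cs) (b - a - 1) w a b (by omega) (by omega) hab
    · exact win_ne (cs := cs) (a - b - 1) w b a (by omega) (by omega) hab.symm
  let S := Finset.univ.image P
  have hS : S.card = 10 := by
    rw [Finset.card_image_of_injective _ hP]; simp
  let e := S.orderIsoOfFin hS
  let r : Fin 10 → Fin 10 := fun a => e.symm ⟨P a, Finset.mem_image_of_mem P (Finset.mem_univ a)⟩
  have hr : ∀ a b, r a < r b ↔ P a < P b := by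
    intro a b
    rw [OrderIso.lt_iff_lt]
    exact Iff.rfl
  have hinj : Function.Injective r := by
    intro a b hab
    apply hP
    by_contra hne
    rcases lt_or_gt_of_ne hne with h | h
    · have := (hr a b).2 h
      rw [hab] at this
      exact lt_irrefl _ this
    · have := (hr b a).2 h
      rw [hab] at this
      exact lt_irrefl _ this
  let σ : Equiv.Perm (Fin 10) := Equiv.ofBijective r (Finite.injective_iff_bijective.1 hinj)
  refine ⟨List.ofFn (fun a => ((σ a : Fin 10) : ℕ)), ⟨by simp, ?_⟩, ?_⟩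
  · intro a b ha hb
    have h1 : ∀ a (ha : a ≤ 9), (List.ofFn (fun a => ((σ a : Fin 10) : ℕ))).getD a 0
        = (σ ⟨a, by omega⟩ : ℕ) := by
      intro a ha
      rw [List.getD_eq_getElem?_getD, List.getElem?_ofFn, dif_pos (by omega)]
      rfl
    rw [h1 a ha, h1 b hb]
    exact (hr ⟨a, by omega⟩ ⟨b, by omega⟩).symm
  · have := Equiv.Perm.ofFn_comp_perm σ (fun a : Fin 10 => (a : ℕ))
    refine this.trans ?_
    have : List.ofFn (fun a : Fin 10 => (a : ℕ)) = List.range 10 := by decide
    rw [this]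


lemma bub_le (n : ℕ) : ∀ (w : W) (ρ : List ℕ), Pat cs w ρ → bub n ρ ≤ cs.length w := by
  induction n with
  | zero => intro w ρ _; exact Nat.zero_le _
  | succ n ih =>
    intro w ρ h
    unfold bub
    cases hf : (List.range' 1 9).find? (fun k => desAt ρ k) with
    | none => exact Nat.zero_le _
    | some k =>
      simp only
      have h1 : desAt ρ k = true := by
        have := List.find?_some hf
        simpa using this
      have h2 : k ∈ List.range' 1 9 := List.mem_of_find?_eq_some hf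
      rw [List.mem_range'_1] at h2
      have h3 := ih _ _ (h.swap h2.1 (by omega))
      have h4 := (h.des h2.1 (by omega)).1 h1
      omega

/-- star operation in one of the two directions -/
def St (cs : CoxeterSystem M W) (k : ℕ) (w w' : W) : Prop :=
  StarRel cs ((PathA9.ix (M := M)) k) ((PathA9.ix (M := M)) (k + 1)) w w' ∨ StarRel cs ((PathA9.ix (M := M)) (k + 1)) ((PathA9.ix (M := M)) k) w w'

lemma St.symm {k : ℕ} {w w' : W} (h : St cs k w w') : St cs k w' w := by
  rcases h with h | h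
  · exact Or.inr h.symm
  · exact Or.inl h.symm

omit [Fintype B] [DecidableEq B] in
lemma M_three {k : ℕ} (hk : 1 ≤ k) (hk' : k ≤ 8) : M ((PathA9.ix (M := M)) k) ((PathA9.ix (M := M)) (k + 1)) = 3 := by
  rw [PathA9.spec (M := M) k (k + 1) hk (by omega) (by omega) (by omega), if_neg (by omega), if_pos (by omega)]

omit [Fintype B] [DecidableEq B] in
lemma M_three' {k : ℕ} (hk : 1 ≤ k) (hk' : k ≤ 8) : M ((PathA9.ix (M := M)) (k + 1)) ((PathA9.ix (M := M)) k) = 3 := by
  rw [PathA9.spec (M := M) (k + 1) k (by omega) (by omega) hk (by omega), if_neg (by omega), if_pos (by omega)]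

lemma St.unique {k : ℕ} (hk : 1 ≤ k) (hk' : k ≤ 8) {w w' w'' : W} (h : St cs k w w')
    (h' : St cs k w w'') : w' = w'' := by
  rcases h with h | h <;> rcases h' with h' | h'
  · exact h.unique (M_three hk hk') h'
  · have h1 := h.xi
    have h2 := h'.xj
    omega
  · have h1 := h.xi
    have h2 := h'.xj
    omega
  · exact h.unique (M_three' hk hk') h'

lemma star_group {w : W} {ρ : List ℕ} (h : Pat cs w ρ) {k : ℕ} (hk : 1 ≤ k) (hk' : k ≤ 8)
    (hd : desAt ρ k ≠ desAt ρ (k + 1)) :
    ∃ w', Pat cs w' (starL k ρ) ∧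
      (desAt ρ k = true → StarRel cs ((PathA9.ix (M := M)) k) ((PathA9.ix (M := M)) (k + 1)) w w') ∧
      (desAt ρ k = false → StarRel cs ((PathA9.ix (M := M)) (k + 1)) ((PathA9.ix (M := M)) k) w w') := by
  have hk9 : k ≤ 9 := by omega
  have g1 : ∀ a, a ≤ 9 → (swapAt (k + 1) ρ).getD a 0 = ρ.getD (sw (k + 1) a) 0 := fun a ha =>
    swapAt_getD (by omega) (by omega) h.1 ha
  have g2 : ∀ a, a ≤ 9 → (swapAt k ρ).getD a 0 = ρ.getD (sw k a) 0 := fun a ha =>
    swapAt_getD hk hk9 h.1 ha
  have s1 : sw (k + 1) (k - 1) = k - 1 := by rw [sw, if_neg (by omega), if_neg (by omega)]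
  have s2 : sw (k + 1) k = k + 1 := by rw [sw, if_pos (by omega)]
  have s3 : sw (k + 1) (k + 1) = k := by rw [sw, if_neg (by omega), if_pos (by omega)]; omega
  have s4 : sw k (k - 1) = k := by rw [sw, if_pos (by omega)]
  have s5 : sw k k = k - 1 := by rw [sw, if_neg (by omega), if_pos (by omega)]
  have s6 : sw k (k + 1) = k + 1 := by rw [sw, if_neg (by omega), if_neg (by omega)]
  have p1 := h.swap (k := k + 1) (by omega) (by omega)
  have p2 := h.swap (k := k) hk hk9
  have q1 : desAt (swapAt (k + 1) ρ) k = decide (ρ.getD (k + 1) 0 < ρ.getD (k - 1) 0) := by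
    rw [desAt, g1 k hk9, g1 (k - 1) (by omega), s1, s2]
  have q2 : desAt (swapAt (k + 1) ρ) (k + 1) = decide (ρ.getD k 0 < ρ.getD (k + 1) 0) := by
    rw [desAt, g1 (k + 1) (by omega), Nat.add_sub_cancel, g1 k hk9, s3, s2]
  have q3 : desAt (swapAt k ρ) k = decide (ρ.getD (k - 1) 0 < ρ.getD k 0) := by
    rw [desAt, g2 k hk9, g2 (k - 1) (by omega), s4, s5]
  have q4 : desAt (swapAt k ρ) (k + 1) = decide (ρ.getD (k + 1) 0 < ρ.getD (k - 1) 0) := by
    rw [desAt, g2 (k + 1) (by omega), Nat.add_sub_cancel, g2 k hk9, s6, s5]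
  have d1 : desAt ρ k = decide (ρ.getD k 0 < ρ.getD (k - 1) 0) := rfl
  have d2 : desAt ρ (k + 1) = decide (ρ.getD (k + 1) 0 < ρ.getD k 0) := by
    rw [desAt, Nat.add_sub_cancel]
  -- distinctness
  have n1 : ρ.getD (k - 1) 0 ≠ ρ.getD (k + 1) 0 := by
    intro he
    have e1 := h.2 (k - 1) (k + 1) (by omega) (by omega)
    have e2 := h.2 (k + 1) (k - 1) (by omega) (by omega)
    rw [he] at e1 e2
    have := win_ne (cs := cs) 1 w (k - 1) (k + 1) (by omega) (by omega)
    rcases lt_or_gt_of_ne this with h3 | h3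
    · exact lt_irrefl _ (e1.1 h3)
    · exact lt_irrefl _ (e2.1 h3)
  have n2 : ρ.getD (k - 1) 0 ≠ ρ.getD k 0 := by
    intro he
    have e1 := h.2 (k - 1) k (by omega) (by omega)
    have e2 := h.2 k (k - 1) (by omega) (by omega)
    rw [he] at e1 e2
    have := win_ne (cs := cs) 0 w (k - 1) k (by omega) (by omega)
    rcases lt_or_gt_of_ne this with h3 | h3
    · exact lt_irrefl _ (e1.1 h3)
    · exact lt_irrefl _ (e2.1 h3)
  have n3 : ρ.getD k 0 ≠ ρ.getD (k + 1) 0 := by
    intro he
    have e1 := h.2 k (k + 1) (by omega) (by omega)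
    have e2 := h.2 (k + 1) k (by omega) (by omega)
    rw [he] at e1 e2
    have := win_ne (cs := cs) 0 w k (k + 1) (by omega) (by omega)
    rcases lt_or_gt_of_ne this with h3 | h3
    · exact lt_irrefl _ (e1.1 h3)
    · exact lt_irrefl _ (e2.1 h3)
  rw [d1, d2] at hd
  have D1 := h.des hk hk9
  have D2 := h.des (k := k + 1) (by omega) (by omega)
  have N1 := h.not_des hk hk9
  have N2 := h.not_des (k := k + 1) (by omega) (by omega)
  rw [d1] at D1 N1
  rw [d2] at D2 N2
  simp only [decide_eq_true_iff, decide_eq_false_iff_not] at D1 D2 N1 N2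
  unfold Pool.Agent.Helper703.KL.starL
  simp only
  generalize ha : ρ.getD (k - 1) 0 = a at *
  generalize hb : ρ.getD k 0 = b at *
  generalize hc : ρ.getD (k + 1) 0 = c at *
  by_cases hcond : (b < a ∧ a < c) ∨ (c < a ∧ a < b)
  · rw [if_pos hcond]
    refine ⟨w * cs.simple ((PathA9.ix (M := M)) (k + 1)), p1, ?_, ?_⟩
    · intro hd1
      rw [d1, decide_eq_true_iff] at hd1
      refine ⟨Or.inr rfl, D1.1 hd1, N2.1 (by omega), ?_, ?_⟩
      · rw [← p1.des (by omega) (by omega), q2, decide_eq_true_iff]; omega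
      · rw [← p1.not_des hk hk9, q1, decide_eq_false_iff_not]; omega
    · intro hd1
      rw [d1, decide_eq_false_iff_not] at hd1
      refine ⟨Or.inl rfl, D2.1 (by omega), N1.1 (by omega), ?_, ?_⟩
      · rw [← p1.des hk hk9, q1, decide_eq_true_iff]; omega
      · rw [← p1.not_des (by omega) (by omega), q2, decide_eq_false_iff_not]; omega
  · rw [if_neg hcond]
    have hd' : ¬ ((b < a ∧ c < b) ∨ (a ≤ b ∧ b ≤ c)) := by
      intro h
      apply hd
      rcases h with h | h
      · rw [decide_eq_true h.1, decide_eq_true h.2]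
      · rw [decide_eq_false (by omega), decide_eq_false (by omega)]
    refine ⟨w * cs.simple ((PathA9.ix (M := M)) k), p2, ?_, ?_⟩
    · intro hd1
      rw [d1, decide_eq_true_iff] at hd1
      refine ⟨Or.inl rfl, D1.1 hd1, N2.1 (by omega), ?_, ?_⟩
      · rw [← p2.des (by omega) (by omega), q4, decide_eq_true_iff]; omega
      · rw [← p2.not_des hk hk9, q3, decide_eq_false_iff_not]; omega
    · intro hd1
      rw [d1, decide_eq_false_iff_not] at hd1
      refine ⟨Or.inr rfl, D2.1 (by omega), N1.1 (by omega), ?_, ?_⟩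
      · rw [← p2.des hk hk9, q3, decide_eq_true_iff]; omega
      · rw [← p2.not_des (by omega) (by omega), q4, decide_eq_false_iff_not]; omega

lemma star_group' {w : W} {ρ : List ℕ} (h : Pat cs w ρ) {k : ℕ} (hk : 1 ≤ k) (hk' : k ≤ 8)
    (hd : desAt ρ k ≠ desAt ρ (k + 1)) : ∃ w', Pat cs w' (starL k ρ) ∧ St cs k w w' := by
  obtain ⟨w', h1, h2, h3⟩ := star_group h hk hk' hd
  refine ⟨w', h1, ?_⟩
  cases hdk : desAt ρ k
  · exact Or.inr (h3 hdk)
  · exact Or.inl (h2 hdk)

lemma star_exists {k : ℕ} (hk : 1 ≤ k) (hk' : k ≤ 8) (w : W)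
    (h1 : cs.length (w * cs.simple ((PathA9.ix (M := M)) k)) < cs.length w)
    (h2 : cs.length w < cs.length (w * cs.simple ((PathA9.ix (M := M)) (k + 1)))) :
    ∃ w', StarRel cs ((PathA9.ix (M := M)) k) ((PathA9.ix (M := M)) (k + 1)) w w' := by
  obtain ⟨ρ, hρ, -⟩ := exists_pat (cs := cs) w
  have e1 := (hρ.des hk (by omega)).2 h1
  have e2 := (hρ.not_des (k := k + 1) (by omega) (by omega)).2 h2
  obtain ⟨w', -, h3, -⟩ := star_group hρ hk hk' (by rw [e1, e2]; decide)
  exact ⟨w', h3 e1⟩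

lemma star_exists' {k : ℕ} (hk : 1 ≤ k) (hk' : k ≤ 8) (w : W)
    (h1 : cs.length (w * cs.simple ((PathA9.ix (M := M)) (k + 1))) < cs.length w)
    (h2 : cs.length w < cs.length (w * cs.simple ((PathA9.ix (M := M)) k))) :
    ∃ w', StarRel cs ((PathA9.ix (M := M)) (k + 1)) ((PathA9.ix (M := M)) k) w w' := by
  obtain ⟨ρ, hρ, -⟩ := exists_pat (cs := cs) w
  have e1 := (hρ.des (k := k + 1) (by omega) (by omega)).2 h1
  have e2 := (hρ.not_des hk (by omega)).2 h2
  obtain ⟨w', -, -, h3⟩ := star_group hρ hk hk' (by rw [e1, e2]; decide)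
  exact ⟨w', h3 e2⟩

section cells

variable {H : Type*} [Ring H] [Algebra A H] {T C : Basis W A H} {bar : H →+* H}

lemma LEq.St (hT : IsHecke cs T) (hb : IsBar cs T bar) (hC : IsKLBasis cs T bar C) {k : ℕ}
    (hk : 1 ≤ k) (hk' : k ≤ 8) {x y x' y' : W} (h : LEq cs T C y x)
    (hx : St cs k x x') (hy : St cs k y y') : LEq cs T C y' x' := by
  rcases hx with hx | hx <;> rcases hy with hy | hy
  · exact LEq.star hT hb hC (M_three hk hk') (star_exists hk hk') h hx hy
  · have h1 := hx.xi
    have h2 := hy.xj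
    have h3 := (LEq.desc_iff hT hb hC h ((PathA9.ix (M := M)) k)).1 h1
    omega
  · have h1 := hx.xi
    have h2 := hy.xj
    have h3 := (LEq.desc_iff hT hb hC h ((PathA9.ix (M := M)) (k + 1))).1 h1
    omega
  · exact LEq.star hT hb hC (M_three' hk hk') (star_exists' hk hk') h hx hy

/-- a chain of star operations -/
def Ch (cs : CoxeterSystem M W) : List ℕ → W → W → Prop
  | [], a, b => a = b
  | k :: ks, a, b => ∃ a', St cs k a a' ∧ Ch cs ks a' b

lemma LEq.desAt_eq (hT : IsHecke cs T) (hb : IsBar cs T bar) (hC : IsKLBasis cs T bar C)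
    {x y : W} {π ρ : List ℕ} (h : LEq cs T C y x) (hx : Pat cs x π) (hy : Pat cs y ρ) {k : ℕ}
    (hk : 1 ≤ k) (hk' : k ≤ 9) : desAt π k = desAt ρ k := by
  have h1 := hx.des hk hk'
  have h2 := hy.des hk hk'
  have h3 := LEq.desc_iff hT hb hC h ((PathA9.ix (M := M)) k)
  rw [← h1, ← h2] at h3
  cases h4 : desAt π k <;> cases h5 : desAt ρ k <;> simp_all

lemma Ch.back (hT : IsHecke cs T) (hb : IsBar cs T bar) (hC : IsKLBasis cs T bar C)
    (ks : List ℕ) : ∀ {z x y : W}, okPath ks = true → Ch cs ks z x → LEq cs T C y x →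
    ∃ y0, LEq cs T C y0 z ∧ Ch cs ks y0 y := by
  induction ks with
  | nil =>
    intro z x y _ hz h
    have : z = x := hz
    subst this
    exact ⟨y, h, rfl⟩
  | cons k ks ih =>
    intro z x y hok hz h
    obtain ⟨z', hz1, hz2⟩ := hz
    have hok' : (1 ≤ k ∧ k ≤ 8) ∧ okPath ks = true := by
      unfold okPath at hok ⊢
      simpa using hok
    obtain ⟨y0', h1, h2⟩ := ih hok'.2 hz2 h
    have h3 := hz1.symm
    obtain ⟨ρ', hρ', -⟩ := exists_pat (cs := cs) y0'
    obtain ⟨π', hπ', -⟩ := exists_pat (cs := cs) z'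
    have e1 := LEq.desAt_eq hT hb hC h1 hπ' hρ' (k := k) hok'.1.1 (by omega)
    have e2 := LEq.desAt_eq hT hb hC h1 hπ' hρ' (k := k + 1) (by omega) (by omega)
    have e3 : desAt π' k ≠ desAt π' (k + 1) := by
      rcases h3 with h3 | h3
      · rw [(hπ'.des hok'.1.1 (by omega)).2 h3.xi,
          (hπ'.not_des (k := k + 1) (by omega) (by omega)).2 h3.xj]
        decide
      · rw [(hπ'.des (k := k + 1) (by omega) (by omega)).2 h3.xi,
          (hπ'.not_des hok'.1.1 (by omega)).2 h3.xj]
        decide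
    obtain ⟨y0, -, h4⟩ := star_group' hρ' hok'.1.1 hok'.1.2 (by rw [← e1, ← e2]; exact e3)
    exact ⟨y0, LEq.St hT hb hC hok'.1.1 hok'.1.2 h1 h3 h4, y0', h4.symm, h2⟩

lemma LEq.desEq (hT : IsHecke cs T) (hb : IsBar cs T bar) (hC : IsKLBasis cs T bar C)
    {x y : W} {π ρ : List ℕ} (h : LEq cs T C y x) (hx : Pat cs x π) (hy : Pat cs y ρ) :
    Pool.Agent.Helper703.KL.desEq π ρ = true := by
  unfold Pool.Agent.Helper703.KL.desEq
  rw [List.all_eq_true]
  intro k hk
  rw [List.mem_range'_1] at hk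
  rw [LEq.desAt_eq hT hb hC h hx hy hk.1 (by omega)]
  simp

lemma test_sound (hT : IsHecke cs T) (hb : IsBar cs T bar) (hC : IsKLBasis cs T bar C) (n : ℕ)
    (ks : List ℕ) : ∀ {z x y0 y : W} {ζ τ : List ℕ}, okPath ks = true → validL ks ζ = true →
    Ch cs ks z x → Ch cs ks y0 y → LEq cs T C y0 z → Pat cs z ζ → Pat cs y0 τ →
    test n ks ζ τ = true → n ≤ cs.length y := by
  induction ks with
  | nil =>
    intro z x y0 y ζ τ _ _ _ hy _ _ hτ ht
    have : y0 = y := hy
    subst this
    unfold test at ht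
    rw [decide_eq_true_iff] at ht
    exact ht.trans (bub_le _ _ _ hτ)
  | cons k ks ih =>
    intro z x y0 y ζ τ hok hv hz hy h hζ hτ ht
    have hok' : (1 ≤ k ∧ k ≤ 8) ∧ okPath ks = true := by
      unfold okPath at hok ⊢
      simpa using hok
    obtain ⟨z', hz1, hz2⟩ := hz
    obtain ⟨y', hy1, hy2⟩ := hy
    unfold validL at hv
    rw [Bool.and_eq_true, bne_iff_ne] at hv
    have hde := LEq.desEq hT hb hC h hζ hτ
    unfold test at ht
    rw [hde] at ht
    simp only [Bool.not_true, Bool.false_or] at ht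
    have e1 := LEq.desAt_eq hT hb hC h hζ hτ (k := k) hok'.1.1 (by omega)
    have e2 := LEq.desAt_eq hT hb hC h hζ hτ (k := k + 1) (by omega) (by omega)
    obtain ⟨z'', hz3, hz4⟩ := star_group' hζ hok'.1.1 hok'.1.2 hv.1
    obtain ⟨y'', hy3, hy4⟩ := star_group' hτ hok'.1.1 hok'.1.2 (by rw [← e1, ← e2]; exact hv.1)
    have ez := hz1.unique hok'.1.1 hok'.1.2 hz4
    have ey := hy1.unique hok'.1.1 hok'.1.2 hy4
    subst ez ey
    exact ih hok'.2 hv.2 hz2 hy2 (LEq.St hT hb hC hok'.1.1 hok'.1.2 h hz1 hy1) hz3 hy3 ht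

lemma back_exists (ks : List ℕ) : ∀ {x : W} {π : List ℕ}, okPath ks = true →
    backOk ks π = true → Pat cs x π → ∃ z, Pat cs z (backRun ks π) ∧ Ch cs ks z x := by
  induction ks with
  | nil =>
    intro x π _ _ h
    exact ⟨x, h, rfl⟩
  | cons k ks ih =>
    intro x π hok hb h
    have hok' : (1 ≤ k ∧ k ≤ 8) ∧ okPath ks = true := by
      unfold okPath at hok ⊢
      simpa using hok
    unfold backOk at hb
    rw [Bool.and_eq_true, bne_iff_ne] at hb
    obtain ⟨z', h1, h2⟩ := ih hok'.2 hb.1 h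
    obtain ⟨z, h3, h4⟩ := star_group' h1 hok'.1.1 hok'.1.2 hb.2
    exact ⟨z, h3, z', h4.symm, h2⟩

/-- Lower bound for the lengths in a left cell by a finite check. -/
theorem cell_bound (hT : IsHecke cs T) (hb : IsBar cs T bar) (hC : IsKLBasis cs T bar C) (n : ℕ)
    (ks π : List ℕ) (hok : okPath ks = true) (hbk : backOk ks π = true)
    (hv : validL ks (backRun ks π) = true)
    (hall : allExt (desAt (backRun ks π)) (test n ks (backRun ks π)) 10 [] (List.range 10) = true)
    {x y : W} (hx : Pat cs x π) (h : LEq cs T C y x) : n ≤ cs.length y := by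
  obtain ⟨z, hz1, hz2⟩ := back_exists ks hok hbk hx
  obtain ⟨y0, hy1, hy2⟩ := Ch.back hT hb hC ks hok hz2 h
  obtain ⟨τ, hτ, hperm⟩ := exists_pat (cs := cs) y0
  apply test_sound hT hb hC n ks hok hv hz2 hy2 hy1 hz1 hτ
  have := allExt_sound _ _ 10 [] (List.range 10) τ hall hperm hτ.1 (by
    intro k hk hk'
    simp only [List.reverse_nil, List.nil_append] at hk' ⊢
    rw [hτ.1] at hk'
    exact (LEq.desAt_eq hT hb hC hy1 hz1 hτ hk (by omega)).symm)
  simpa using this

end cells


variable (cs) in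
/-- the element given by a word in the generators `1, …, 9` -/
def wd (ω : List ℕ) : W := cs.wordProd (ω.map (PathA9.ix (M := M)))

lemma wd_nil : wd cs [] = 1 := by simp [wd]
lemma wd_cons (k : ℕ) (ω : List ℕ) : wd cs (k :: ω) = cs.simple ((PathA9.ix (M := M)) k) * wd cs ω := by
  simp [wd, cs.wordProd_cons]
lemma wd_append (ω ω' : List ℕ) : wd cs (ω ++ ω') = wd cs ω * wd cs ω' := by
  simp [wd, cs.wordProd_append]
lemma wd_reverse (ω : List ℕ) : wd cs ω.reverse = (wd cs ω)⁻¹ := by
  simp [wd, List.map_reverse, cs.wordProd_reverse]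
lemma wd_length_le (ω : List ℕ) : cs.length (wd cs ω) ≤ ω.length := by
  have := cs.length_wordProd_le (ω.map (PathA9.ix (M := M)))
  simpa [wd] using this

lemma Pat.mulR (ω : List ℕ) : ∀ {w : W} {ρ : List ℕ}, Pat cs w ρ → okWord ω = true →
    Pat cs (w * wd cs ω) (Pool.Agent.Helper703.KL.mulR ρ ω) := by
  induction ω with
  | nil => intro w ρ h _; simpa [wd_nil, Pool.Agent.Helper703.KL.mulR] using h
  | cons k ω ih =>
    intro w ρ h hok
    have h1 := okWord_cons hok
    rw [wd_cons, ← mul_assoc]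
    exact ih (h.swap h1.1.1 h1.1.2) h1.2

lemma Pat.wd {ω : List ℕ} (h : okWord ω = true) : Pat cs (wd cs ω) (patOf ω) := by
  have := Pat.mulR (cs := cs) ω (Pat.one (cs := cs)) h
  rwa [one_mul] at this

lemma geo_other_coord (ω : List ℕ) (hω : okWord ω = true) (j : B)
    (hj : ∀ k, 1 ≤ k → k ≤ 9 → j ≠ (PathA9.ix (M := M)) k) (x : B → ℝ) :
    geo cs (wd cs ω) x j = x j := by
  induction ω with
  | nil => simp [wd_nil]
  | cons k ω ih =>
    have h1 := okWord_cons hω
    rw [wd_cons, map_mul, Module.End.mul_apply, geo_simple, sg_apply, Pi.sub_apply, Pi.smul_apply,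
      ih h1.2]
    have : (ee ((PathA9.ix (M := M)) k) : B → ℝ) j = 0 := by
      simp [ee, hj k h1.1.1 h1.1.2]
    rw [this]
    simp

lemma eq_one_of_pat {ω : List ℕ} (hω : okWord ω = true) (h : patOf ω = List.range 10) :
    wd cs ω = 1 := by
  have hp := Pat.wd (cs := cs) hω
  rw [h] at hp
  by_contra hne
  obtain ⟨i, hi⟩ := cs.exists_rightDescent_of_ne_one hne
  by_cases hi0 : ∃ k, 1 ≤ k ∧ k ≤ 9 ∧ i = (PathA9.ix (M := M)) k
  · obtain ⟨k, hk, hk', rfl⟩ := hi0
    have h1 := (hp.des hk hk').2 hi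
    have h2 : ∀ k, 1 ≤ k → k ≤ 9 → desAt (List.range 10) k = false := by
      intro k hk hk'
      interval_cases k <;> decide
    rw [h2 k hk hk'] at h1
    exact absurd h1 (by decide)
  · have h1 := (geo_nonpos_iff cs (wd cs ω) i).2 hi
    have h2 := h1 i
    rw [geo_other_coord ω hω i (fun k hk hk' e => hi0 ⟨k, hk, hk', e⟩)] at h2
    simp [ee] at h2
    norm_num at h2

lemma wd_eq {ω ω' : List ℕ} (hω : okWord ω = true) (hω' : okWord ω' = true)
    (h : patOf (ω ++ ω'.reverse) = List.range 10) : wd cs ω = wd cs ω' := by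
  have := eq_one_of_pat (cs := cs) (okWord_append hω (okWord_reverse hω')) h
  rw [wd_append, wd_reverse, mul_inv_eq_one] at this
  exact this

lemma demW_spec (ω : List ℕ) (hω : okWord ω = true) (y : List ℕ × List ℕ)
    (hy : Pat cs (wd cs y.1)⁻¹ y.2) (hy' : okWord y.1 = true) :
    Pat cs (wd cs (demW ω y).1)⁻¹ (demW ω y).2 ∧ okWord (demW ω y).1 = true ∧
      wd cs (demW ω y).1 = dem cs (ω.map (PathA9.ix (M := M))) (wd cs y.1) := by
  induction ω with
  | nil => exact ⟨hy, hy', rfl⟩
  | cons k ω ih =>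
    have h1 := okWord_cons hω
    obtain ⟨i1, i2, i3⟩ := ih h1.2
    have e : dem cs ((k :: ω).map (PathA9.ix (M := M))) (wd cs y.1) = dmax cs ((PathA9.ix (M := M)) k) (wd cs (demW ω y).1) := by
      rw [i3]; rfl
    have hlen : cs.length (cs.simple ((PathA9.ix (M := M)) k) * wd cs (demW ω y).1)
        = cs.length ((wd cs (demW ω y).1)⁻¹ * cs.simple ((PathA9.ix (M := M)) k)) := by
      rw [← cs.length_inv, mul_inv_rev, cs.inv_simple]
    unfold demW
    split_ifs with hd
    · refine ⟨i1, i2, ?_⟩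
      rw [e, dmax, if_neg]
      have := (i1.des h1.1.1 h1.1.2).1 hd
      rw [cs.length_inv] at this
      omega
    · have hd' : desAt (demW ω y).2 k = false := by simpa using hd
      have := (i1.not_des h1.1.1 h1.1.2).1 hd'
      rw [cs.length_inv] at this
      refine ⟨?_, ?_, ?_⟩
      · simp only
        rw [wd_cons, mul_inv_rev, cs.inv_simple]
        exact i1.swap h1.1.1 h1.1.2
      · simp only
        unfold okWord at i2 ⊢
        rw [List.all_cons, i2]
        simp [h1.1.1, h1.1.2]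
      · simp only
        rw [wd_cons, e, dmax, if_pos]
        omega

section cells

variable {H : Type*} [Ring H] [Algebra A H] {T C : Basis W A H} {bar : H →+* H}

lemma chain_sound (hT : IsHecke cs T) (hb : IsBar cs T bar) (hC : IsKLBasis cs T bar C)
    (ks : List (ℕ × ℕ)) : ∀ (ω ρ : List ℕ), Pat cs (wd cs ω)⁻¹ ρ → chainOk ks ρ = true →
    LEq cs T C (wd cs (chainEnd ks ω)) (wd cs ω) := by
  induction ks with
  | nil => intro ω ρ _ _; exact LEq.refl _
  | cons p ks ih =>
    obtain ⟨k, k'⟩ := p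
    intro ω ρ hρ h
    unfold chainOk at h
    simp only [Bool.and_eq_true, decide_eq_true_iff] at h
    obtain ⟨⟨⟨⟨⟨hk, hk9⟩, hk'⟩, hk9'⟩, hd⟩, hrest⟩ := h
    have hρ' : Pat cs (wd cs (k :: ω))⁻¹ (swapAt k ρ) := by
      rw [wd_cons, mul_inv_rev, cs.inv_simple]
      exact hρ.swap hk hk9
    have h1 := ih (k :: ω) _ hρ' hrest
    have conv : ∀ (u : W) (j : ℕ), cs.length (u⁻¹ * cs.simple ((PathA9.ix (M := M)) j))
        = cs.length (cs.simple ((PathA9.ix (M := M)) j) * u) := by
      intro u j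
      rw [length_simple_mul_inv]
    refine LEq.trans h1 ?_
    rw [wd_cons]
    cases hdk : desAt ρ k
    · rw [hdk] at hd
      simp only [Bool.false_eq_true, if_false, Bool.and_eq_true, Bool.not_eq_true'] at hd
      have a1 := (hρ.not_des hk hk9).1 hdk
      have a2 := (hρ.des hk' hk9').1 hd.1
      have a3 := (hρ'.not_des hk' hk9').1 hd.2
      rw [conv, cs.length_inv] at a1 a2 a3
      rw [wd_cons] at a3
      exact LEq.left_star hT hb hC a1 a2 a3
    · rw [hdk] at hd
      simp only [if_true, Bool.and_eq_true, Bool.not_eq_true'] at hd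
      have a1 := (hρ.des hk hk9).1 hdk
      have a2 := (hρ'.des hk' hk9').1 hd.1
      have a3 := (hρ.not_des hk' hk9').1 hd.2
      rw [conv, cs.length_inv] at a1 a2 a3
      rw [wd_cons] at a2
      have := LEq.left_star hT hb hC (k := (PathA9.ix (M := M)) k) (k' := (PathA9.ix (M := M)) k')
        (u := cs.simple ((PathA9.ix (M := M)) k) * wd cs ω) (by rw [simple_simple]; exact a1) a2
        (by rw [simple_simple]; exact a3)
      rw [simple_simple] at this
      exact this.symm

end cells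

section main

variable {H : Type*} [Ring H] [Algebra A H] {T C : Basis W A H} {bar : H →+* H}

/-- isLambda of a word -/
lemma word_lambda (hT : IsHecke cs T) (ω : List ℕ) (hω : okWord ω = true) (n : ℕ)
    (hn : ω.length = n) (hb : n ≤ bub 46 (patOf ω.reverse)) :
    IsLambda cs T (wd cs ω)⁻¹ (wd cs ω) (wd cs (demW ω.reverse (ω, patOf ω.reverse)).1) ∧
    Pat cs (wd cs (demW ω.reverse (ω, patOf ω.reverse)).1)⁻¹
      (demW ω.reverse (ω, patOf ω.reverse)).2 ∧
    okWord (demW ω.reverse (ω, patOf ω.reverse)).1 = true := by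
  have hp : Pat cs (wd cs ω)⁻¹ (patOf ω.reverse) := by
    rw [← wd_reverse]
    exact Pat.wd (okWord_reverse hω)
  have hs := demW_spec (cs := cs) ω.reverse (okWord_reverse hω) (ω, patOf ω.reverse) hp hω
  refine ⟨?_, hs.1, hs.2.1⟩
  rw [hs.2.2, ← wd_reverse]
  apply isLambda_dem hT
  have h1 := bub_le 46 _ _ hp
  have h2 : cs.length (cs.wordProd (ω.reverse.map (PathA9.ix (M := M)))) ≤ (ω.reverse.map (PathA9.ix (M := M))).length :=
    cs.length_wordProd_le _
  have h3 : cs.length (cs.wordProd (ω.reverse.map (PathA9.ix (M := M)))) = cs.length (wd cs ω)⁻¹ := by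
    rw [← wd_reverse]; rfl
  have h4 : (ω.reverse.map (PathA9.ix (M := M))).length = n := by simp [hn]
  show cs.length _ = _
  rw [h4] at h2 ⊢
  omega

lemma shortest_of (hT : IsHecke cs T) (hb : IsBar cs T bar) (hC : IsKLBasis cs T bar C)
    (ω ks : List ℕ) (n : ℕ) (hω : okWord ω = true) (hn : ω.length = n)
    (hok : okPath ks = true) (hbk : backOk ks (patOf ω) = true)
    (hv : validL ks (backRun ks (patOf ω)) = true)
    (hall : allExt (desAt (backRun ks (patOf ω))) (test n ks (backRun ks (patOf ω))) 10 []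
      (List.range 10) = true) : Shortest cs T C (wd cs ω) := by
  intro y hy
  have h1 := cell_bound hT hb hC n ks (patOf ω) hok hbk hv hall (Pat.wd (cs := cs) hω) hy
  have h2 := wd_length_le (cs := cs) ω
  omega

/-- No set `D` satisfies both (i) and (ii) in affine type `A~_9`. -/
theorem main (hT : IsHecke cs T) (hb : IsBar cs T bar) (hC : IsKLBasis cs T bar C) (D : Set W) :
    ¬ (PartI cs T C D ∧ PartII cs T C D) := by
  rintro ⟨h1, h2⟩
  obtain ⟨k1, k2, k3, k4, k5, k6, k7, k8, k9, k10, k11, k12, k13, k14, k15, k16, k17⟩ := checks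
  have sx : Shortest cs T C (wd cs wx) := shortest_of hT hb hC wx px 27 k1 k3 k9 k11 k13 c2
  have sy : Shortest cs T C (wd cs wy) := shortest_of hT hb hC wy py 32 k2 k4 k10 k12 k14 c3
  obtain ⟨lx, -, okw⟩ := word_lambda (cs := cs) hT wx k1 27 k3 k7
  obtain ⟨ly, pz, -⟩ := word_lambda (cs := cs) hT wy k2 32 k4 k8
  have hD := h1 _ sx _ lx
  have hy : Pat cs (wd cs wy)⁻¹ (patOf wy.reverse) := by
    rw [← wd_reverse]
    exact Pat.wd (okWord_reverse k2)
  have e := chain_sound hT hb hC cyw wy _ hy k15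
  rw [wd_eq (cs := cs) k16 okw k17] at e
  have h3 := h2 _ hD _ sy e.symm
  have h4 := (h3.2 _ ly.1).length
  have h5 : cs.length (wd cs ww) ≤ 36 := by
    rw [← k5]; exact wd_length_le ww
  have h6 : 39 ≤ cs.length (wd cs wz.1) := by
    have := bub_le 46 _ _ pz
    rw [cs.length_inv] at this
    exact le_trans k6 this
  have e1 : wd cs (demW wx.reverse (wx, patOf wx.reverse)).1 = wd cs ww := rfl
  have e2 : wd cs (demW wy.reverse (wy, patOf wy.reverse)).1 = wd cs wz.1 := rfl
  rw [e1, e2] at h4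
  rcases h4 with h4 | h4
  · rw [h4] at h6; omega
  · omega


end main

end Pool.Agent.Y826.KL
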